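import Pool.Agent.Helper63.XR.StA

set_option autoImplicit false

/-! Project XR (MP_c973ff_an): module GRA (existence of the layered graph). -/

namespace Pool.Agent.Helper6.XR

open Pool.Agent.Helper63.XR
open Finset

/-- Vertices: layer, label (a nonzero residue, at most `a l`), position. -/
def Pt (k q : ℕ) (a : ℕ → ℕ) : Type :=
  {v : Fin (k + 1) × ZMod q × (Fin k → ZMod q) // v.2.1 ≠ 0 ∧ v.2.1.val ≤ a v.1}

section

variable {k q : ℕ} {a : ℕ → ℕ}

/-- layer -/
def Pt.l (v : Pt k q a) : ℕ := v.1.1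

/-- label -/
def Pt.x (v : Pt k q a) : ZMod q := v.1.2.1

/-- position -/
def Pt.s (v : Pt k q a) : Fin k → ZMod q := v.1.2.2

theorem Pt.ext' {u v : Pt k q a} (h1 : u.l = v.l) (h2 : u.x = v.x) (h3 : u.s = v.s) : u = v := by
  apply Subtype.ext
  apply Prod.ext
  · exact Fin.ext h1
  · exact Prod.ext h2 h3

theorem Pt.l_le (v : Pt k q a) : v.l ≤ k := Nat.le_of_lt_succ v.1.1.2

theorem Pt.x_ne (v : Pt k q a) : v.x ≠ 0 := v.2.1

theorem Pt.x_le (v : Pt k q a) : v.x.val ≤ a v.l := v.2.2

noncomputable instance [NeZero q] : Fintype (Pt k q a) := by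
  classical
  exact Subtype.fintype _

noncomputable instance : DecidableEq (Pt k q a) := Classical.decEq _

/-- `c` is a child of `v`. -/
def Rel (v c : Pt k q a) : Prop :=
  c.l = v.l + 1 ∧ ∀ j : Fin k, c.s j = v.s j + if (j : ℕ) = v.l then v.x * c.x else 0

open Classical in
/-- children -/
noncomputable def Ch [NeZero q] (v : Pt k q a) : Finset (Pt k q a) := univ.filter (Rel v)

theorem mem_Ch [NeZero q] {v c : Pt k q a} : c ∈ Ch v ↔ Rel v c := by
  classical
  simp [Ch]

open Classical in
/-- labels -/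
noncomputable def Xs (q n : ℕ) [NeZero q] : Finset (ZMod q) :=
  univ.filter fun x => x ≠ 0 ∧ x.val ≤ n

theorem mem_Xs {n : ℕ} [NeZero q] {x : ZMod q} : x ∈ Xs q n ↔ x ≠ 0 ∧ x.val ≤ n := by
  classical
  simp [Xs]

theorem card_Xs {n : ℕ} [NeZero q] (h : n < q) : (Xs q n).card = n := by
  have h1 : (Xs q n).card = (Finset.Icc 1 n).card := by
    refine Finset.card_nbij' (fun x => x.val) (fun m => (m : ZMod q)) ?_ ?_ ?_ ?_
    · intro x hx
      have h2 := mem_Xs.1 (Finset.mem_coe.1 hx)
      rw [Finset.mem_coe, Finset.mem_Icc]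
      refine ⟨Nat.one_le_iff_ne_zero.2 fun h3 => h2.1 ((ZMod.val_eq_zero x).1 h3), h2.2⟩
    · intro m hm
      rw [Finset.mem_coe, Finset.mem_Icc] at hm
      rw [Finset.mem_coe, mem_Xs]
      have h3 : ((m : ZMod q)).val = m := ZMod.val_cast_of_lt (by omega)
      refine ⟨fun h4 => ?_, le_of_eq_of_le h3 hm.2⟩
      have h5 : (m : ZMod q) = 0 := h4
      rw [h5, ZMod.val_zero] at h3
      omega
    · intro x _
      exact ZMod.natCast_zmod_val x
    · intro m hm
      rw [Finset.mem_coe, Finset.mem_Icc] at hm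
      exact ZMod.val_cast_of_lt (by omega)
  rw [h1, Nat.card_Icc]
  omega

theorem cd_lev [NeZero q] (l : ℕ) (hl : l ≤ k) (hq : a l < q) :
    (univ.filter fun v : Pt k q a => v.l = l).card = a l * q ^ k := by
  classical
  have h1 : (univ.filter fun v : Pt k q a => v.l = l).card =
      ((Xs q (a l)) ×ˢ (univ : Finset (Fin k → ZMod q))).card := by
    refine Finset.card_bij (fun v _ => (v.x, v.s)) ?_ ?_ ?_
    · intro v hv
      rw [Finset.mem_filter] at hv
      rw [Finset.mem_product]
      refine ⟨mem_Xs.2 ⟨v.x_ne, ?_⟩, Finset.mem_univ _⟩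
      have := v.x_le
      rw [hv.2] at this
      exact this
    · intro u hu v hv huv
      rw [Finset.mem_filter] at hu hv
      rw [Prod.mk.injEq] at huv
      exact Pt.ext' (hu.2.trans hv.2.symm) huv.1 huv.2
    · rintro ⟨x, s⟩ hxs
      rw [Finset.mem_product] at hxs
      have h2 := mem_Xs.1 hxs.1
      refine ⟨⟨(⟨l, Nat.lt_succ_of_le hl⟩, x, s), h2⟩, ?_, rfl⟩
      rw [Finset.mem_filter]
      exact ⟨Finset.mem_univ _, rfl⟩
  rw [h1, Finset.card_product, card_Xs hq, Finset.card_univ, Fintype.card_fun, ZMod.card,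
    Fintype.card_fin]

theorem cd_ch [NeZero q] (v : Pt k q a) (hv : v.l < k) (hq : a (v.l + 1) < q) :
    (Ch v).card = a (v.l + 1) := by
  have h1 : (Ch v).card = (Xs q (a (v.l + 1))).card := by
    refine Finset.card_bij (fun c _ => c.x) ?_ ?_ ?_
    · intro c hc
      have h2 := mem_Ch.1 hc
      refine mem_Xs.2 ⟨c.x_ne, ?_⟩
      have := c.x_le
      rw [h2.1] at this
      exact this
    · intro c hc c' hc' h
      have h2 := mem_Ch.1 hc
      have h3 := mem_Ch.1 hc'
      refine Pt.ext' (h2.1.trans h3.1.symm) h ?_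
      funext j
      rw [h2.2 j, h3.2 j, h]
    · intro x hx
      have h2 := mem_Xs.1 hx
      refine ⟨⟨(⟨v.l + 1, by omega⟩, x, fun j => v.s j + if (j : ℕ) = v.l then v.x * x else 0),
        h2⟩, ?_, rfl⟩
      rw [mem_Ch]
      exact ⟨rfl, fun j => rfl⟩
  rw [h1, card_Xs hq]

theorem cd_par [NeZero q] (c : Pt k q a) (hq : ∀ l, l ≤ k → a l < q) :
    (univ.filter fun v : Pt k q a => c ∈ Ch v).card ≤ a (c.l - 1) := by
  have h1 : (univ.filter fun v : Pt k q a => c ∈ Ch v).card ≤ (Xs q (a (c.l - 1))).card := by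
    refine Finset.card_le_card_of_injOn (fun v => v.x) ?_ ?_
    · intro v hv
      rw [Finset.mem_coe, Finset.mem_filter] at hv
      have h2 := mem_Ch.1 hv.2
      rw [Finset.mem_coe]
      refine mem_Xs.2 ⟨v.x_ne, ?_⟩
      have h3 := v.x_le
      have h4 : v.l = c.l - 1 := by have := h2.1; omega
      rw [h4] at h3
      exact h3
    · intro u hu v hv huv
      rw [Finset.mem_coe, Finset.mem_filter] at hu hv
      have h2 := mem_Ch.1 hu.2
      have h3 := mem_Ch.1 hv.2
      have h4 : u.l = v.l := by have := h2.1; have := h3.1; omega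
      simp only at huv
      refine Pt.ext' h4 huv ?_
      funext j
      have h5 := h2.2 j
      have h6 := h3.2 j
      rw [h4, huv] at h5
      have h7 := h5.symm.trans h6
      exact add_right_cancel h7
  refine h1.trans ?_
  rw [card_Xs (hq _ (by have := c.l_le; omega))]

theorem shr [Fact q.Prime] {u v c c' : Pt k q a} (huv : u ≠ v) (h1 : Rel u c) (h2 : Rel v c)
    (h3 : Rel u c') (h4 : Rel v c') : c = c' := by
  have hl : u.l = v.l := by have := h1.1; have := h2.1; omega
  have hlk : u.l < k := by have := h1.1; have := c.l_le; omega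
  have e1 := h1.2 ⟨u.l, hlk⟩
  have e2 := h2.2 ⟨u.l, hlk⟩
  have e3 := h3.2 ⟨u.l, hlk⟩
  have e4 := h4.2 ⟨u.l, hlk⟩
  rw [if_pos rfl] at e1 e3
  rw [if_pos hl] at e2 e4
  have e5 : (u.x - v.x) * (c.x - c'.x) = 0 := by
    linear_combination (-1 : ZMod q) * e1 + e2 + e3 - e4
  rcases mul_eq_zero.1 e5 with h | h
  · exfalso
    have hx : u.x = v.x := sub_eq_zero.1 h
    apply huv
    refine Pt.ext' hl hx ?_
    funext j
    have e6 := h1.2 j
    have e7 := h2.2 j
    rw [hl, hx] at e6
    exact add_right_cancel (e6.symm.trans e7)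
  · have hx : c.x = c'.x := sub_eq_zero.1 h
    refine Pt.ext' (h1.1.trans h3.1.symm) hx ?_
    funext j
    rw [h1.2 j, h3.2 j, hx]

theorem gen_l [NeZero q] {t : Pt k q a} {n : ℕ} : ∀ {u : Pt k q a}, u ∈ gen Ch t n →
    u.l = t.l + n := by
  induction n with
  | zero =>
    intro u hu
    rw [gen, Finset.mem_singleton] at hu
    rw [hu, add_zero]
  | succ n ih =>
    intro u hu
    rw [gen, Finset.mem_biUnion] at hu
    obtain ⟨w, hw, hu⟩ := hu
    have h1 := ih hw
    have h2 := (mem_Ch.1 hu).1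
    omega

theorem gen_uq [Fact q.Prime] {t : Pt k q a} {n : ℕ} : ∀ {u v : Pt k q a}, u ∈ gen Ch t n →
    v ∈ gen Ch t n → (∀ j : Fin k, (j : ℕ) < t.l + n → u.s j = v.s j) → u = v := by
  induction n with
  | zero =>
    intro u v hu hv _
    rw [gen, Finset.mem_singleton] at hu hv
    rw [hu, hv]
  | succ n ih =>
    intro u v hu hv h
    have hul := gen_l hu
    rw [gen, Finset.mem_biUnion] at hu hv
    obtain ⟨u', hu', hu⟩ := hu
    obtain ⟨v', hv', hv⟩ := hv
    have ru := mem_Ch.1 hu
    have rv := mem_Ch.1 hv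
    have lu := gen_l hu'
    have lv := gen_l hv'
    have huv : u' = v' := by
      refine ih hu' hv' fun j hj => ?_
      have e1 := ru.2 j
      have e2 := rv.2 j
      rw [if_neg (by omega), add_zero] at e1 e2
      rw [← e1, ← e2]
      exact h j (by omega)
    subst huv
    have hk : u'.l < k := by have := u.l_le; omega
    have e1 := ru.2 ⟨u'.l, hk⟩
    have e2 := rv.2 ⟨u'.l, hk⟩
    rw [if_pos rfl] at e1 e2
    have e3 := h ⟨u'.l, hk⟩ (by simp only; omega)
    have hx : u.x = v.x := by
      have e4 : u'.x * u.x = u'.x * v.x := by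
        have := e1.symm.trans (e3.trans e2)
        exact add_left_cancel this
      exact mul_left_cancel₀ u'.x_ne e4
    refine Pt.ext' (ru.1.trans rv.1.symm) hx ?_
    funext j
    rw [ru.2 j, rv.2 j, hx]

end

theorem hGRA : StGra := by
  intro k a ha
  obtain ⟨q, hq, hqp⟩ := Nat.exists_infinite_primes ((∑ l ∈ Finset.range (k + 1), a l) + 1)
  have : Fact q.Prime := ⟨hqp⟩
  have hlt : ∀ l, l ≤ k → a l < q := by
    intro l hl
    have h1 : a l ≤ ∑ l ∈ Finset.range (k + 1), a l :=
      Finset.single_le_sum (f := a) (fun _ _ => Nat.zero_le _)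
        (Finset.mem_range.2 (Nat.lt_succ_of_le hl))
    omega
  refine ⟨q ^ k, Pt k q a, inferInstance, inferInstance, Nat.one_le_iff_ne_zero.2
    (pow_ne_zero _ hqp.ne_zero), ⟨?_⟩⟩
  exact
    { lev := Pt.l
      ch := Ch
      lev_le := Pt.l_le
      ch_lev := fun v c hc => (mem_Ch.1 hc).1
      card_lev := fun l hl => cd_lev l hl (hlt l hl)
      card_ch := fun v hv => cd_ch v hv (hlt _ hv)
      card_par := fun c => cd_par c hlt
      share := by
        intro u v huv
        rw [Finset.card_le_one]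
        intro c hc c' hc'
        rw [Finset.mem_inter, mem_Ch, mem_Ch] at hc hc'
        exact shr huv hc.1 hc.2 hc'.1 hc'.2
      tree := by
        intro t n u v hu hv huv
        rw [Finset.disjoint_left]
        intro c hc hc'
        rw [mem_Ch] at hc hc'
        apply huv
        have lu := gen_l hu
        have lv := gen_l hv
        refine gen_uq hu hv fun j hj => ?_
        have e1 := hc.2 j
        have e2 := hc'.2 j
        rw [if_neg (by omega), add_zero] at e1 e2
        rw [← e1, ← e2] }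

end Pool.Agent.Helper6.XR
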